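import Pool.Agent.L7h83.GK.Stm
import Pool.Agent.L7h61.GK.Link
import Pool.Agent.L7h73.GK.St1
import Pool.Agent.L7h70.GK.Sw
import Pool.Agent.L7h60.GK.Low
import Pool.Agent.L7h60.GK.Fin
import Pool.Agent.L7h65.GK.Exp
import Pool.Agent.L7h76.GK.St3
import Pool.Agent.L7h36.GK.Gen

set_option autoImplicit false

namespace Pool.Agent.L7h83.GK

theorem s_all : S_FIN :=
  Pool.Agent.L7h60.GK.s_FIN (Pool.Agent.L7h70.GK.s_SW
    (Pool.Agent.L7h36.GK.s_GEN Pool.Agent.L7h60.GK.s_LOW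
      (Pool.Agent.L7h73.GK.s_ST1 Pool.Agent.L7h65.GK.s_EXP)
      (Pool.Agent.L7h65.GK.s_ST2 Pool.Agent.L7h65.GK.s_EXP)
      (Pool.Agent.L7h76.GK.s_ST3 Pool.Agent.L7h65.GK.s_EXP))
    Pool.Agent.L7h61.GK.s_JOIN Pool.Agent.L7h61.GK.s_LINK)

end Pool.Agent.L7h83.GK
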