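import Pool.Agent.H126R2.CDC.Main

set_option autoImplicit false

/-!
Project GK (MP_5dc923_co, Goddyn).  Statements.

Theorem: let `K 1, ..., K s` be even edge sets of a finite graph `G` with connected complements
`(V, E - K i)`, such that `E - K i` is contained in the union of two even sets.  Every eulerian
weight `w` with `2 s ≤ w e ≤ 2 s + 1 + 2 #{i : e in K i}` has a faithful circuit cover.

Graphs are given by half-edges `v : E x Bool -> W` as in `Pool.Agent.H126R2.CDC.Colour`.
-/

namespace Pool.Agent.L7h83.GK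

open Finset
open Pool.Agent.H126R2.CDC (T3 IsFl excess MGraph lab)
open Pool.Agent.Helper879.ECD (F2)

section

variable {W E M N : Type} [Fintype W] [DecidableEq W] [Fintype E] [DecidableEq E]
  [Fintype M] [DecidableEq M] [Fintype N] [DecidableEq N]

/-- number of half-edges at `w` -/
def dg (v : E × Bool → W) (w : W) : ℕ := (univ.filter (fun h => v h = w)).card

/-- one step of a chain of edges outside the support of `a` -/
def Stp (v : E × Bool → W) (a : E → F2) (e f : E) : Prop :=
  a f = 0 ∧ ∃ s t : Bool, v (e, s) = v (f, t)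

/-- `A` is a nowhere-zero flow with values in the group of order eight; the edges in `R` are
outside the support of `A 0` and linked by chains of edges outside the support of `A 0`. -/
def Hyp (v : E × Bool → W) (A : Fin 3 → E → F2) (R : E → Prop) : Prop :=
  (∀ i, IsFl v (A i)) ∧ (∀ e, A 0 e ≠ 0 ∨ A 1 e ≠ 0 ∨ A 2 e ≠ 0) ∧ (∀ e, R e → A 0 e = 0) ∧
    ∀ e f, R e → R f → Relation.ReflTransGen (Stp v (A 0)) e f

/-- a double cover by eight even sets with four of them covering every edge of `R` twice and every
edge of the support of `a` once -/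
def Good (v : E × Bool → W) (a : E → F2) (R : E → Prop) : Prop :=
  ∃ (S : E → Finset T3) (P : Finset T3), P.card = 4 ∧ (∀ e, (S e).card = 2) ∧
    (∀ c, IsFl v (fun e => if c ∈ S e then 1 else 0)) ∧
    (∀ e, R e → S e ⊆ P) ∧ ∀ e, a e ≠ 0 → (S e ∩ P).card = 1

/-- reduction to a graph with smaller degree excess -/
def Red (v : E × Bool → W) (A : Fin 3 → E → F2) (R : E → Prop) : Prop :=
  ∃ (W' E' : Type) (_ : Fintype W') (_ : DecidableEq W') (_ : Fintype E') (_ : DecidableEq E')
    (v' : E' × Bool → W') (A' : Fin 3 → E' → F2) (R' : E' → Prop),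
    Hyp v' A' R' ∧ excess v' < excess v ∧ (Good v' (A' 0) R' → Good v (A 0) R)

/-- the graph with old edges `E` attached by `u` and new edges `N` attached by `n` -/
def glue (u : E × Bool → W ⊕ M) (n : N × Bool → W ⊕ M) : (E ⊕ N) × Bool → W ⊕ M :=
  fun h => Sum.elim (fun e => u (e, h.2)) (fun k => n (k, h.2)) h.1

/-- the new vertices `M` are mapped to `w0` -/
def col (w0 : W) : W ⊕ M → W := Sum.elim id (fun _ => w0)

end

/-- LOW (90 lines).  All degrees at most three.  Copy the proof of `low_deg`
(`H126R2/CDC/Colour.lean`): `B` from `lift`, `S e = filter (inS c (lab A e) (lab B e))`; two of the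
four properties are proved there.  New: `inS c x t = inS (T3.add c x) x t` (decide), so `S e` is
`{c, c + lab A e}`.  Hence if `A 0 e = 0` both elements of `S e` have the same first coordinate
(the side of `e`), and if `A 0 e ≠ 0` exactly one element of `S e` has first coordinate `b`, for
each `b`.  If `e`, `f` outside the support of `A 0` share a vertex (half-edges `h = (e, s)`,
`h' = (f, t)`, `v h = v h' = w`, at most three half-edges at `w`), then their sides are equal: if
`h = h'` trivial; otherwise the indicator of `c` sums to zero over the two or three half-edges at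
`w`; if the sides were different, `S e`, `S f` would be disjoint with four elements together, all of
them in `S g` for the third half-edge `(g, _)` (contradiction to card 2; with only two half-edges
even `S e = S f`).  So the side is constant along `Stp` chains, `b` the common side of all edges in
`R` (any `b` if there is none), `P = {c | c.1 = b}`. -/
def S_LOW : Prop := ∀ (W E : Type) [Fintype W] [DecidableEq W] [Fintype E] [DecidableEq E]
  (v : E × Bool → W) (A : Fin 3 → E → F2) (R : E → Prop), (∀ w, dg v w ≤ 3) → Hyp v A R →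
  Good v (A 0) R

/-- EXP (60 lines).  Contraction of the new vertices: flows of the glued graph restrict to flows
(use `isFl_iff` in `CDC/Colour.lean`, potentials `c ∘ col w0`; the new edges contribute zero).
Conversely a function which is a flow on the old edges is a flow of the glued graph if the flow
condition holds at all new vertices `inr m` (at `inl w`, `w ≠ w0`, nothing changed because
`col w0 (u h) = v h` and `col w0 (n k) = w0`; at `inl w0` because the sum over all vertices is
`2 * ... = 0`, or the fiber over `w0` has the old sum plus twice the new edges).  Excess: at the new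
vertices degree at most three, at `w ≠ w0` unchanged, at `w0` smaller. -/
def S_EXP : Prop := ∀ (W E M N : Type) [Fintype W] [DecidableEq W] [Fintype E] [DecidableEq E]
  [Fintype M] [DecidableEq M] [Fintype N] [DecidableEq N]
  (v : E × Bool → W) (w0 : W) (u : E × Bool → W ⊕ M) (n : N × Bool → W ⊕ M),
  (∀ h, col w0 (u h) = v h) → (∀ k, col w0 (n k) = w0) →
    (∀ g : E ⊕ N → F2, IsFl (glue u n) g → IsFl v (fun e => g (Sum.inl e))) ∧
    (∀ g : E ⊕ N → F2, IsFl v (fun e => g (Sum.inl e)) →
      (∀ m : M, ∑ h : (E ⊕ N) × Bool, (if glue u n h = Sum.inr m then g h.1 else 0) = 0) →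
      IsFl (glue u n) g) ∧
    ((∀ m : M, dg (glue u n) (Sum.inr m) ≤ 3) → 4 ≤ dg v w0 →
      dg (glue u n) (Sum.inl w0) < dg v w0 → excess (glue u n) < excess v)

/-- ST1 (120 lines, from EXP).  Two half-edges at the vertex `w0 = v h1` with different values but
the same value of `A 0`: `M = N = Unit`, `u h = inr ()` for `h = h1, h2` and `inl (v h)` otherwise,
`n ((), false) = inr ()`, `n ((), true) = inl w0`, value `A i h1.1 + A i h2.1` on the new edge (so
`A 0 = 0` there), `R' (inl e) = R e`, `R' (inr _) = False`.  Chains: a step between edges sharing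
`w0` becomes one step or two steps through the new edge.  Degree of `w0` drops by one.  The
existing proof of `cover_of_flow` (case `hcase`) has the same surgery. -/
def S_ST1 : Prop := ∀ (W E : Type) [Fintype W] [DecidableEq W] [Fintype E] [DecidableEq E]
  (v : E × Bool → W) (A : Fin 3 → E → F2) (R : E → Prop), Hyp v A R →
  ∀ h1 h2 : E × Bool, h1 ≠ h2 → v h1 = v h2 → 4 ≤ dg v (v h1) → A 0 h1.1 = A 0 h2.1 →
    (∃ i, A i h1.1 ≠ A i h2.1) → Red v A R

/-- ST2 (80 lines, from EXP).  Two half-edges in the support of `A 0` with equal values are split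
off to a new vertex without new edge: `M = Unit`, `N = Empty`.  Chains are not affected, since the
half-edges of edges outside the support of `A 0` stay.  Degree of `w0` drops by two. -/
def S_ST2 : Prop := ∀ (W E : Type) [Fintype W] [DecidableEq W] [Fintype E] [DecidableEq E]
  (v : E × Bool → W) (A : Fin 3 → E → F2) (R : E → Prop), Hyp v A R →
  ∀ h1 h2 : E × Bool, h1 ≠ h2 → v h1 = v h2 → 4 ≤ dg v (v h1) → A 0 h1.1 ≠ 0 →
    (∀ i, A i h1.1 = A i h2.1) → Red v A R

/-- ST3 (180 lines, from EXP).  Three half-edges at `w0` with equal values `t`, `t 0 = 0`: `M = Fin 3`,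
`N = Fin 4`, `u (h_j) = inr j`, new edges `0 : inr 0 - inr 1` with value `x`, `1 : inr 1 - inr 2` with
value `t + x`, `2 : inr 0 - inl w0` with value `t + x`, `3 : inr 2 - inl w0` with value `x`, where
`x 0 = 0`, `x ≠ 0, t` (`x = (0, t 2, t 1 + t 2)`, that is, the other two nonzero vectors with first
coordinate zero are `x` and `t + x`).  At `inr 0`: `t + x + (t + x) = 0`, at `inr 1`:
`t + x + (t + x)`, at `inr 2`: `t + (t + x) + x`.  All new edges are outside the support of `A 0`
and connect `inr 0, inr 1, inr 2, inl w0`, so chains survive.  Degree of `w0` drops by one. -/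
def S_ST3 : Prop := ∀ (W E : Type) [Fintype W] [DecidableEq W] [Fintype E] [DecidableEq E]
  (v : E × Bool → W) (A : Fin 3 → E → F2) (R : E → Prop), Hyp v A R →
  ∀ h1 h2 h3 : E × Bool, h1 ≠ h2 → h1 ≠ h3 → h2 ≠ h3 → v h1 = v h2 → v h1 = v h3 →
    4 ≤ dg v (v h1) → A 0 h1.1 = 0 →
    (∀ i, A i h1.1 = A i h2.1 ∧ A i h1.1 = A i h3.1) → Red v A R

/-- GEN (70 lines, from LOW, ST1, ST2, ST3; strong induction on `excess v`).  At a vertex of degree
at least four: ST1 applies unless any two half-edges with the same `A 0` have the same value; then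
ST2 if some half-edge has `A 0 ≠ 0` (there is a second one since `A 0` is a flow), otherwise ST3. -/
def S_GEN : Prop := ∀ (W E : Type) [Fintype W] [DecidableEq W] [Fintype E] [DecidableEq E]
  (v : E × Bool → W) (A : Fin 3 → E → F2) (R : E → Prop), Hyp v A R → Good v (A 0) R

/-- JOIN (60 lines).  Values on the support of `a` extend to a flow if the edges outside the support
of `a` form a connected spanning graph.  (Duality as in `CDC/Lift.lean`; `TH300/FC/Dual.lean` or
`TH300/FC/Rank.lean`, `flow_of_span`, may help.) -/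
def S_JOIN : Prop := ∀ (W E : Type) [Fintype W] [DecidableEq W] [Fintype E] [DecidableEq E]
  (v : E × Bool → W) (a : E → F2),
  (∀ X : Finset W, X.Nonempty → X ≠ univ →
    ∃ e, a e = 0 ∧ ¬ (v (e, false) ∈ X ↔ v (e, true) ∈ X)) →
  ∀ d : E → F2, ∃ g : E → F2, IsFl v g ∧ ∀ e, a e ≠ 0 → g e = d e

/-- LINK (50 lines).  Under the same hypothesis the edges outside the support of `a` are linked:
the set `X` of all ends of the edges reached from `e` is closed. -/
def S_LINK : Prop := ∀ (W E : Type) [Fintype W] [DecidableEq W] [Fintype E] [DecidableEq E]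
  (v : E × Bool → W) (a : E → F2),
  (∀ X : Finset W, X.Nonempty → X ≠ univ →
    ∃ e, a e = 0 ∧ ¬ (v (e, false) ∈ X ↔ v (e, true) ∈ X)) →
  ∀ e f, a e = 0 → a f = 0 → Relation.ReflTransGen (Stp v a) e f

/-- SW (60 lines, from GEN, JOIN, LINK).  `R e = (A 0 e = 0)`; `g` the flow with `g = 1_D` on the
support of `A 0`; `X c = {e | (c in S e) xor (c in P and g e = 1)}`. -/
def S_SW : Prop := ∀ (W E : Type) [Fintype W] [DecidableEq W] [Fintype E] [DecidableEq E]
  (v : E × Bool → W) (A : Fin 3 → E → F2), (∀ i, IsFl v (A i)) →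
  (∀ e, A 0 e ≠ 0 ∨ A 1 e ≠ 0 ∨ A 2 e ≠ 0) →
  (∀ X : Finset W, X.Nonempty → X ≠ univ →
    ∃ e, A 0 e = 0 ∧ ¬ (v (e, false) ∈ X ↔ v (e, true) ∈ X)) →
  ∀ D : Finset E, (∀ e ∈ D, A 0 e ≠ 0) →
  ∃ S : E → Finset T3, (∀ c, IsFl v (fun e => if c ∈ S e then 1 else 0)) ∧
    ∀ e, (S e).card = if e ∈ D then 4 else 2

/-- FIN (100 lines, from SW).  Layers `D i ⊆ K i` with `#{i : e in D i} = w e / 2 - s`; eight even
sets for every layer, decomposed into circuits (`MGraph.decompose`, `MGraph.isEven_iff`,
`MGraph.exists_halves`; compare the proof of `exists_cdc`), and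
`Pool.Agent.H416R3.GD.cover_of_even_part`. -/
def S_FIN : Prop := ∀ (V E : Type) [Fintype V] [DecidableEq V] [Fintype E] [DecidableEq E]
  (G : MGraph V E) (s : ℕ) (K : Fin s → Finset E), (∀ i v, Even (G.deg (K i) v)) →
  (∀ i, ∀ X : Finset V, X.Nonempty → X ≠ univ →
    ∃ e ∉ K i, ∃ a ∈ X, ∃ b ∉ X, G.ends e = s(a, b)) →
  (∀ i, ∃ Y Z : Finset E, (∀ v, Even (G.deg Y v)) ∧ (∀ v, Even (G.deg Z v)) ∧
    ∀ e, e ∈ K i ∨ e ∈ Y ∨ e ∈ Z) →
  ∀ w : E → ℕ, (∀ (X : Finset V) (T : Finset E),
      (∀ f, f ∈ T ↔ ∃ a ∈ X, ∃ b ∉ X, G.ends f = s(a, b)) → Even (∑ e ∈ T, w e)) →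
  (∀ e, 2 * s ≤ w e ∧ w e ≤ 2 * s + 1 + 2 * (univ.filter fun i => e ∈ K i).card) →
  ∃ F : Multiset (Finset E), (∀ C ∈ F, G.IsCircuit C) ∧ ∀ e, F.countP (fun C => e ∈ C) = w e

end Pool.Agent.L7h83.GK
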